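import Pool.Agent.H231Z.Abc.Frey

set_option autoImplicit false

namespace Pool.Agent.Results.MP_d8bd92_nt.ALowerBound

/-- For every `C < 24 √e = 39.56...` there are semistable elliptic curves over `ℚ` (integral
Weierstrass models with `Δ ≠ 0` coprime to `c₄`) of arbitrarily large conductor `N` (the product
of the primes dividing `Δ`) with `|Δ| > N ^ 6 exp(C √(log N) / log log N)`. -/
theorem result : ∀ C : ℝ, C < 24 * √(Real.exp 1) → ∀ M : ℕ,
    ∃ (W : WeierstrassCurve ℤ) (N : ℕ), W.Δ ≠ 0 ∧ IsCoprime W.c₄ W.Δ ∧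
      N = ∏ p ∈ W.Δ.natAbs.primeFactors, p ∧ M < N ∧
      (N : ℝ) ^ 6 * Real.exp (C * √(Real.log N) / Real.log (Real.log N)) <
        ((W.Δ.natAbs : ℕ) : ℝ) := by
  intro C hC M
  obtain ⟨W, h1, h2, h3, h4⟩ := Pool.Agent.H231Z.Abc.M.szpiro C hC M
  exact ⟨W, _, h1.ne', h2, rfl, h3, h4⟩

end Pool.Agent.Results.MP_d8bd92_nt.ALowerBound
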